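import Pool.Agent.TH188.ARC.G9

/-!
MP_6a3dac_ag: for every number field `E`, every integral projective scheme `X` over `E` with regular
local rings and every integer `d` there is an integral proper flat model of `X` over the ring of
integers of `E` which is regular at all points of the closures of all the points of `X` with values
in number fields of degree at most `d`.
-/

set_option autoImplicit false

open AlgebraicGeometry CategoryTheory CategoryTheory.Limits NumberField

namespace Pool.Agent.Results.MP_6a3dac_ag.BoundedDegree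

/-- `X` with the morphism `f` to `Spec E` is projective over `E`: it is `Proj` of a graded
`E`-algebra with degree zero part `E`, generated by finitely many elements of degree one. -/
def IsProjectiveOver {E : Type} [Field E] {X : Scheme.{0}} (f : X ⟶ Spec (CommRingCat.of E)) :
    Prop :=
  ∃ (A : Type) (_ : CommRing A) (_ : Algebra E A) (𝒜 : ℕ → Submodule E A) (_ : GradedAlgebra 𝒜),
    (∀ a ∈ 𝒜 0, ∃ q : E, algebraMap E A q = a) ∧
    (∃ s : Finset A, (∀ a ∈ s, a ∈ 𝒜 1) ∧ Algebra.adjoin E (s : Set A) = ⊤) ∧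
    ∃ i : X ≅ Proj 𝒜,
      i.hom ≫ Proj.toSpecZero 𝒜 ≫ Spec.map (CommRingCat.ofHom (algebraMap E (𝒜 0))) = f

theorem result :
    ∀ (E : Type) [Field E] [NumberField E] (X : Scheme.{0}) (f : X ⟶ Spec (CommRingCat.of E)),
      IsIntegral X → IsProjectiveOver f →
      (∀ x : X, IsRegularLocalRing (X.presheaf.stalk x)) →
      ∀ d : ℕ,
      ∃ (Y : Scheme.{0}) (g : Y ⟶ Spec (CommRingCat.of (𝓞 E)))
        (e : pullback g (Spec.map (CommRingCat.ofHom (algebraMap (𝓞 E) E))) ≅ X),
        IsIntegral Y ∧ IsProper g ∧ Flat g ∧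
        e.hom ≫ f = pullback.snd g (Spec.map (CommRingCat.ofHom (algebraMap (𝓞 E) E))) ∧
        ∀ (L : Type) [Field L] [NumberField L], Module.finrank ℚ L ≤ d →
          ∀ (ψ : Spec (CommRingCat.of L) ⟶ X) (p : Spec (CommRingCat.of L)),
          ∀ z ∈ closure ({(ψ ≫ e.inv ≫ pullback.fst _ _) p} : Set Y),
            IsRegularLocalRing (Y.presheaf.stalk z) := by
  intro E _ _ X f hX hproj hreg d
  obtain ⟨A, _, _, 𝒜, _, h0, ⟨s, hs, hgen⟩, i, hif⟩ := hproj
  obtain ⟨F, _, _, _, _, M, g, hg, hg0, e, hM, he, hall⟩ :=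
    Pool.Agent.TH188.ARC.proj_degree (O := 𝓞 E) (fun o => RingOfIntegers.isIntegral o) f hreg 𝒜
      h0 s hs hgen i hif d
  have hinj : Function.Injective (algebraMap (𝓞 E) F) := by
    rw [IsScalarTower.algebraMap_eq (𝓞 E) E F]
    exact (algebraMap E F).injective.comp (IsFractionRing.injective (𝓞 E) E)
  refine ⟨_, Pool.Agent.H968R2.Quad.modelMap M, e,
    Pool.Agent.H968R2.Quad.model_integral M g hg hg0,
    Pool.Agent.H968R2.Quad.modelMap_isProper M hinj hM,
    Pool.Agent.TH188.ARC.modelMap_flat hinj M g hg hg0, he, ?_⟩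
  intro L _ _ hL ψ p z hz
  have hp : p = Pool.Agent.TH188.ARC.thePt L :=
    Subsingleton.elim (α := PrimeSpectrum L) p (Pool.Agent.TH188.ARC.thePt L)
  rw [hp] at hz
  exact hall L hL ψ z (specializes_iff_mem_closure.2 hz)

end Pool.Agent.Results.MP_6a3dac_ag.BoundedDegree
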