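import Pool.Agent.TH188.ARC.G5

/-!
MP_6a3dac_ag: for every number field `E`, every integral projective scheme `X` over `E` with regular
local rings, every discrete valuation ring `V` with fraction field `L` and every `L`-valued point of
`X` there is an integral proper flat model of `X` over the ring of integers of `E` to which the point
extends as a `V`-valued point whose closed point is a regular point of the model.
-/

set_option autoImplicit false

open AlgebraicGeometry CategoryTheory CategoryTheory.Limits NumberField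

namespace Pool.Agent.Results.MP_6a3dac_ag.TraitModels

/-- `X` with the morphism `f` to `Spec E` is projective over `E`: it is `Proj` of a graded
`E`-algebra with degree zero part `E`, generated by finitely many elements of degree one. -/
def IsProjectiveOver {E : Type} [Field E] {X : Scheme.{0}} (f : X ⟶ Spec (CommRingCat.of E)) :
    Prop :=
  ∃ (A : Type) (_ : CommRing A) (_ : Algebra E A) (𝒜 : ℕ → Submodule E A) (_ : GradedAlgebra 𝒜),
    (∀ a ∈ 𝒜 0, ∃ q : E, algebraMap E A q = a) ∧
    (∃ s : Finset A, (∀ a ∈ s, a ∈ 𝒜 1) ∧ Algebra.adjoin E (s : Set A) = ⊤) ∧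
    ∃ i : X ≅ Proj 𝒜,
      i.hom ≫ Proj.toSpecZero 𝒜 ≫ Spec.map (CommRingCat.ofHom (algebraMap E (𝒜 0))) = f

theorem result :
    ∀ (E : Type) [Field E] [NumberField E] (X : Scheme.{0}) (f : X ⟶ Spec (CommRingCat.of E)),
      IsIntegral X → IsProjectiveOver f →
      (∀ x : X, IsRegularLocalRing (X.presheaf.stalk x)) →
      ∀ (L : Type) [Field L] (V : ValuationSubring L) [IsDiscreteValuationRing V]
        (ψ : Spec (CommRingCat.of L) ⟶ X),
      ∃ (Y : Scheme.{0}) (g : Y ⟶ Spec (CommRingCat.of (𝓞 E)))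
        (e : pullback g (Spec.map (CommRingCat.ofHom (algebraMap (𝓞 E) E))) ≅ X)
        (ψ' : Spec (CommRingCat.of V) ⟶ Y),
        IsIntegral Y ∧ IsProper g ∧ Flat g ∧
        e.hom ≫ f = pullback.snd g (Spec.map (CommRingCat.ofHom (algebraMap (𝓞 E) E))) ∧
        Spec.map (CommRingCat.ofHom V.subtype) ≫ ψ' = ψ ≫ e.inv ≫ pullback.fst _ _ ∧
        IsRegularLocalRing (Y.presheaf.stalk (ψ' (IsLocalRing.closedPoint V))) := by
  intro E _ _ X f hX hproj hreg L _ V _ ψ
  obtain ⟨A, _, _, 𝒜, _, h0, ⟨s, hs, hgen⟩, i, hif⟩ := hproj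
  obtain ⟨κ₀, hκ₀⟩ := Spec.map_surjective (ψ ≫ f)
  have hL : CharZero L := charZero_of_injective_ringHom κ₀.hom.injective
  obtain ⟨F, _, _, _, _, M, g, hg, hg0, e, ψ', hM, he, hψ', hr⟩ :=
    Pool.Agent.TH188.ARC.proj_trait (O := 𝓞 E) f hreg 𝒜 h0 s hs hgen i hif V ψ (by
      intro κ o
      have h1 : IsIntegral ℤ o := RingOfIntegers.isIntegral o
      have h2 : IsIntegral V (κ (algebraMap (𝓞 E) E o)) := by
        obtain ⟨p, hp, hp0⟩ := h1
        refine ⟨p.map (Int.castRingHom V), hp.map _, ?_⟩
        rw [Polynomial.eval₂_map]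
        have h3 := congrArg (κ.comp (algebraMap (𝓞 E) E)) hp0
        rw [Polynomial.hom_eval₂, map_zero] at h3
        have h4 : (algebraMap V L).comp (Int.castRingHom V) =
            (κ.comp (algebraMap (𝓞 E) E)).comp (algebraMap ℤ (𝓞 E)) := RingHom.ext_int _ _
        rw [h4]
        exact h3
      obtain ⟨v, hv⟩ := IsIntegrallyClosed.isIntegral_iff.1 h2
      rw [← hv]
      exact v.2)
  have hinj : Function.Injective (algebraMap (𝓞 E) F) := by
    rw [IsScalarTower.algebraMap_eq (𝓞 E) E F]
    exact (algebraMap E F).injective.comp (IsFractionRing.injective (𝓞 E) E)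
  refine ⟨_, Pool.Agent.H968R2.Quad.modelMap M, e, ψ',
    Pool.Agent.H968R2.Quad.model_integral M g hg hg0,
    Pool.Agent.H968R2.Quad.modelMap_isProper M hinj hM,
    Pool.Agent.TH188.ARC.modelMap_flat hinj M g hg hg0, he, hψ', hr⟩

end Pool.Agent.Results.MP_6a3dac_ag.TraitModels
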